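import Pool.Agent.H.MP_55e6a3_gt.A

set_option autoImplicit false

namespace Pool.Agent.Results.MP_55e6a3_gt.Closed

open Set Filter Topology Pool.Agent.H.MP_55e6a3_gt

def WTheta (X : Type*) [TopologicalSpace X] : Prop :=
  ∀ 𝒰 : Set (Set X), (∀ U ∈ 𝒰, IsOpen U) → ⋃₀ 𝒰 = univ →
    ∃ 𝒱 : ℕ → Set (Set X), (∀ n, ∀ V ∈ 𝒱 n, IsOpen V ∧ ∃ U ∈ 𝒰, V ⊆ U) ∧
      ∀ x, ∃ n, {V ∈ 𝒱 n | x ∈ V}.Nonempty ∧ {V ∈ 𝒱 n | x ∈ V}.Finite

theorem result : ∃ (X Y : Type) (_ : TopologicalSpace X) (_ : TopologicalSpace Y) (f : X → Y),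
    T35Space X ∧ T3Space Y ∧ Continuous f ∧ Function.Surjective f ∧ IsClosedMap f ∧
      WTheta X ∧ ¬ WTheta Y := by
  obtain ⟨A, a0, hA, hs⟩ := levels
  obtain ⟨X, hX⟩ : ∃ X : Set (Ultrafilter L), ∀ x, x ∈ X ↔ ∃ n, ∃ p ∈ A n, x ∈ p.K :=
    ⟨{x | ∃ n, ∃ p ∈ A n, x ∈ p.K}, fun _ => Iff.rfl⟩
  have h1 : ∀ x : X, ∃ g, P x.1 g := fun x => by
    obtain ⟨n, p, hp, hx⟩ := (hX _).1 x.2
    exact ⟨_, ((hA n p hp).2.1 _ hx).1⟩
  choose f hf using h1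
  have e : ∀ (x : X) n, ∀ p ∈ A n, x.1 ∈ p.K → f x = p.g := fun x n p hp hx =>
    P_uniq (hf x) ((hA n p hp).2.1 _ hx).1
  have ho : ∀ s : Set L, IsOpen {y : X | s ∈ y.1} := fun s =>
    (ultrafilter_isOpen_basic s).preimage continuous_subtype_val
  have z : ∀ c, ¬ U c → (⟨{pure c}, c, {c}⟩ : Pc) ∈ A 0 := fun c hc => a0 ▸ ⟨hc, rfl⟩
  refine ⟨X, Y, inferInstance, inferInstance, f, inferInstance, inferInstance,
    continuous_def.2 fun O hO => isOpen_iff_forall_mem_open.2 fun x hx => ?_, fun g => ?_,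
    fun F hF => ⟨op.2 fun g hg hU => ?_⟩, fun 𝒰 h𝒰 hc => ?_, fun h => ?_⟩
  · by_cases h : U (f x)
    · obtain ⟨b, b1, b2⟩ := hO _ hx h
      refine ⟨_, fun y hy => b2 ⟨not_le.1 fun h2 => ?_, ?_⟩, ho _,
        (hf x).1 {b} (countable_singleton b) (singleton_subset_iff.2 b1)⟩
      · obtain ⟨c, c1, c2⟩ := Filter.nonempty_of_mem (inter_mem hy
          ((hf y).1 ∅ countable_empty (empty_subset _)))
        exact c1.1 (mem_biUnion (mem_singleton b) (mem_Iic.2 (le_trans (mem_Iic.1 c2.2) h2)))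
      · exact (P_loc (hf y) (a := b) hy fun c hc => ⟨(not_le.1 fun h2 =>
          hc.1 (mem_biUnion (mem_singleton b) (mem_Iic.2 h2))).le, hc.2⟩).2
    · refine ⟨_, fun y hy => ?_, ho _, (hf x).2 h⟩
      have h2 := P_loc (hf y) hy (Icc_self (f x)).ge
      rw [mem_preimage, h2.2.antisymm h2.1]
      exact hx
  · by_cases h : U g
    · obtain ⟨q, q1, q2, y, y1, -⟩ := hs 0 g h univ fun b hb => by
        obtain ⟨c, c1, c2, c3⟩ := succ_cof h b hb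
        exact ⟨_, z c c1, c2, c3, pure c, rfl, trivial⟩
      exact ⟨⟨y, (hX _).2 ⟨_, q, q1, y1⟩⟩, (e _ _ q q1 y1).trans q2⟩
    · exact ⟨⟨pure g, (hX _).2 ⟨0, _, z g h, rfl⟩⟩, e _ 0 _ (z g h) rfl⟩
  · by_contra h
    have h2 : ∃ n, ∀ b < g, ∃ p ∈ A n, b < p.g ∧ p.g < g ∧
        (p.K ∩ Subtype.val '' F).Nonempty := by
      by_contra h2
      simp only [not_exists, not_forall] at h2
      choose b b1 b2 using h2
      obtain ⟨c, c1, c2⟩ := hU (range b) (countable_range b) (range_subset_iff.2 b1)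
      refine h ⟨c, c1, ?_⟩
      rintro _ h3 ⟨x, x1, rfl⟩
      obtain ⟨n, p, p1, p2⟩ := (hX _).1 x.2
      refine b2 n p ⟨p1, e x n p p1 p2 ▸ (c2 _ ⟨n, rfl⟩).trans h3.1,
        e x n p p1 p2 ▸ lt_of_le_of_ne h3.2 fun h4 => hg ⟨x, x1, h4⟩, x, p2, x, x1, rfl⟩
    obtain ⟨n, h2⟩ := h2
    obtain ⟨q, q1, q2, y, y1, y2⟩ := hs n g hU _ h2
    refine hg ⟨⟨y, (hX _).2 ⟨_, q, q1, y1⟩⟩, ?_, (e _ _ q q1 y1).trans q2⟩
    rw [← hF.closure_eq, IsInducing.subtypeVal.closure_eq_preimage_closure_image]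
    exact y2
  · have h2 : ∀ p : Pc, ∃ t ⊆ 𝒰, t.Finite ∧ ∀ n, p ∈ A n → ∀ x : X, x.1 ∈ p.K → x ∈ ⋃₀ t := by
      intro p
      by_cases h : ∃ n, p ∈ A n
      · obtain ⟨n, hn⟩ := h
        have h3 : IsCompact (Subtype.val ⁻¹' p.K : Set X) :=
          (IsInducing.subtypeVal.isCompact_preimage_iff fun y hy =>
            ⟨⟨y, (hX _).2 ⟨n, p, hn, hy⟩⟩, rfl⟩).2 (hA n p hn).1.isCompact
        obtain ⟨t, t1, t2, t3⟩ := h3.elim_finite_subcover_image (b := 𝒰) (c := fun W => W) h𝒰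
          (by rw [← sUnion_eq_biUnion, hc]; exact subset_univ _)
        exact ⟨t, t1, t2, fun _ _ x hx => sUnion_eq_biUnion ▸ t3 hx⟩
      · exact ⟨∅, empty_subset _, finite_empty, fun n hn => absurd ⟨n, hn⟩ h⟩
    choose t t1 t2 t3 using h2
    refine ⟨fun n => {V | ∃ p ∈ A n, ∃ U ∈ t p, U ∩ {y | p.S ∈ y.1} = V}, ?_, fun x => ?_⟩
    · rintro n _ ⟨p, -, W, h3, rfl⟩
      exact ⟨(h𝒰 W (t1 p h3)).inter (ho _), W, t1 p h3, inter_subset_left⟩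
    · obtain ⟨n, p, p1, p2⟩ := (hX _).1 x.2
      obtain ⟨W, w1, w2⟩ := t3 p n p1 x p2
      refine ⟨n, ⟨_, ⟨p, p1, W, w1, rfl⟩, w2, ((hA n p p1).2.1 _ p2).2⟩,
        ((t2 p).image fun W => W ∩ {y | p.S ∈ y.1}).subset ?_⟩
      rintro _ ⟨⟨q, q1, W, h3, rfl⟩, h4⟩
      obtain rfl := (hA n q q1).2.2 p p1 _ p2 h4.2
      exact ⟨W, h3, rfl⟩
  · obtain ⟨𝒱, v1, v2⟩ := h (range Iic) (by rintro _ ⟨a, rfl⟩; exact oIic a)
      (eq_univ_of_forall fun a => ⟨_, ⟨a, rfl⟩, self_mem_Iic⟩)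
    exact notw 𝒱 v1 v2

end Pool.Agent.Results.MP_55e6a3_gt.Closed
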