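import Mathlib

set_option autoImplicit false

namespace Pool.Agent.Results.MP_55e6a3_gt.Perfect

open Set Topology

def WTheta (X : Type*) [TopologicalSpace X] : Prop :=
  ∀ 𝒰 : Set (Set X), (∀ U ∈ 𝒰, IsOpen U) → ⋃₀ 𝒰 = univ →
    ∃ 𝒱 : ℕ → Set (Set X), (∀ n, ∀ V ∈ 𝒱 n, IsOpen V ∧ ∃ U ∈ 𝒰, V ⊆ U) ∧
      ∀ x, ∃ n, {V ∈ 𝒱 n | x ∈ V}.Nonempty ∧ {V ∈ 𝒱 n | x ∈ V}.Finite

theorem atom {X ι : Type*} [TopologicalSpace X] {K : Set X} (hK : IsCompact K) (hn : K.Nonempty)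
    (O : ι → Set X) (hO : ∀ i, IsOpen (O i)) :
    ∃ x ∈ K, ∀ a b, x ∈ O a → x ∉ O b → ∃ s : Finset ι, b ∈ s ∧ x ∉ ⋃ i ∈ s, O i ∧
      K \ ⋃ i ∈ s, O i ⊆ O a := by
  classical
  obtain ⟨A, hA⟩ := zorn_subset {A : Set ι | (K \ ⋃ i ∈ A, O i).Nonempty} fun c hc hch => by
    refine ⟨⋃₀ c, ?_, fun s hs => subset_sUnion_of_mem hs⟩
    rcases c.eq_empty_or_nonempty with rfl | hne
    · simpa using hn
    by_contra h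
    have := hne.to_subtype
    obtain ⟨A, hA⟩ := hK.elim_directed_cover (fun A : c => ⋃ i ∈ A.1, O i)
      (fun A => isOpen_biUnion fun i _ => hO i) (fun x hx => by
        by_contra h1
        refine h ⟨x, hx, fun h2 => h1 ?_⟩
        obtain ⟨i, ⟨A, hA, hi⟩, h3⟩ := mem_iUnion₂.1 h2
        exact mem_iUnion.2 ⟨⟨A, hA⟩, mem_biUnion hi h3⟩) fun A B => (hch.total A.2 B.2).elim
          (fun h => ⟨B, biUnion_subset_biUnion_left h, Subset.rfl⟩)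
          fun h => ⟨A, Subset.rfl, biUnion_subset_biUnion_left h⟩
    obtain ⟨x, h1, h2⟩ := hc A.2
    exact h2 (hA h1)
  obtain ⟨x, hx, h1⟩ := hA.1
  have h2 : ∀ b z, z ∈ K → z ∉ ⋃ i ∈ A, O i → z ∉ O b → b ∈ A := fun b z h2 h3 h4 =>
    hA.2 (y := insert b A) ⟨z, h2, by rw [biUnion_insert]; exact fun h => h.elim h4 h3⟩
      (subset_insert _ _) (mem_insert _ _)
  refine ⟨x, hx, fun a b ha hb => ?_⟩
  obtain ⟨t, t1, t2, t3⟩ := (hK.diff (hO a)).elim_finite_subcover_image (b := A) (c := O)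
    (fun i _ => hO i) fun z hz => by_contra fun h => h1 (mem_biUnion (h2 a z hz.1 h hz.2) ha)
  refine ⟨insert b t2.toFinset, Finset.mem_insert_self _ _, fun h => ?_, fun z hz =>
    by_contra fun h => hz.2 ?_⟩
  · obtain ⟨i, hi, h3⟩ := mem_iUnion₂.1 h
    rcases Finset.mem_insert.1 hi with rfl | hi
    · exact hb h3
    · exact h1 (mem_biUnion (t1 (t2.mem_toFinset.1 hi)) h3)
  · obtain ⟨i, hi, h3⟩ := mem_iUnion₂.1 (t3 ⟨hz.1, h⟩)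
    exact mem_biUnion (Finset.mem_insert_of_mem (t2.mem_toFinset.2 hi)) h3

theorem result {X Y : Type*} [TopologicalSpace X] [TopologicalSpace Y] (f : X → Y)
    (hc : Continuous f) (hs : Function.Surjective f) (hcl : IsClosedMap f)
    (hk : ∀ y, IsCompact (f ⁻¹' {y})) (hX : WTheta X) : WTheta Y := by
  intro 𝒰 hU hcov
  obtain ⟨𝒱, v1, v2⟩ := hX ((fun U => f ⁻¹' U) '' 𝒰) (by
    rintro _ ⟨U, h, rfl⟩
    exact (hU U h).preimage hc) (eq_univ_of_forall fun x => by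
    obtain ⟨U, h1, h2⟩ : f x ∈ ⋃₀ 𝒰 := hcov ▸ mem_univ _
    exact ⟨_, ⟨U, h1, rfl⟩, h2⟩)
  obtain ⟨N, hN⟩ : ∃ N : ℕ → X → Set (Set X), ∀ m x, N m x = {V ∈ 𝒱 m | x ∈ V} :=
    ⟨_, fun _ _ => rfl⟩
  simp only [← hN] at v2
  have n1 : ∀ m x t, t ⊆ N m x → t.Finite → ∃ G, IsOpen G ∧ x ∈ G ∧ ∀ z ∈ G, t ⊆ N m z :=
    fun m x t h1 h2 => ⟨⋂₀ t, h2.isOpen_sInter fun V hV => (v1 m V (hN m x ▸ h1 hV).1).1,
      fun V hV => (hN m x ▸ h1 hV).2, fun z hz V hV => hN m z ▸ ⟨(hN m x ▸ h1 hV).1, hz V hV⟩⟩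
  let O : ℕ × ℕ → Set X := fun p => {x | (p.2 : ℕ∞) ≤ (N p.1 x).encard}
  have hO : ∀ p, IsOpen (O p) := fun p => isOpen_iff_forall_mem_open.2 fun x hx => by
    obtain ⟨t, h1, h2⟩ := exists_subset_encard_eq hx
    obtain ⟨G, g1, g2, g3⟩ := n1 p.1 x t h1 (finite_of_encard_eq_coe h2)
    exact ⟨G, fun z hz => h2.ge.trans (encard_le_encard (g3 z hz)), g1, g2⟩
  let C : Finset (ℕ × ℕ) → Y → Set X := fun s y => f ⁻¹' {y} \ ⋃ p ∈ s, O p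
  let T : Finset (ℕ × ℕ) → ℕ → Y → Set (Set X) := fun s m y => ⋃ x ∈ C s y, N m x
  let P : Finset (ℕ × ℕ) × ℕ × ℕ → Y → Prop := fun t y =>
    C t.1 y ⊆ O (t.2.1, t.2.2) ∧ (t.2.1, t.2.2 + 1) ∈ t.1
  have p1 : ∀ t y, P t y → ∀ x ∈ C t.1 y, (N t.2.1 x).encard = t.2.2 := fun t y h x hx =>
    le_antisymm (ENat.lt_add_one_iff (ENat.coe_ne_top _)|>.1 (not_le.1 fun h1 => hx.2
      (mem_biUnion (Finset.mem_coe.2 h.2) (by exact_mod_cast h1)))) (h.1 hx)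
  have p2 : ∀ t y, P t y → (T t.1 t.2.1 y).Finite ∧ ∃ G, IsOpen G ∧ y ∈ G ∧
      ∀ z ∈ G, P t z → T t.1 t.2.1 z ⊆ T t.1 t.2.1 y := fun t y h => by
    choose G g1 g2 g3 using fun x : C t.1 y => n1 t.2.1 x _ Subset.rfl
      (finite_of_encard_eq_coe (p1 t y h x x.2))
    have g4 : ∀ x : C t.1 y, ∀ z, P t z → ∀ w ∈ C t.1 z, w ∈ G x → N t.2.1 w = N t.2.1 x :=
      fun x z hz w hw h1 => ((finite_of_encard_eq_coe (p1 t y h x x.2)).eq_of_subset_of_encard_le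
        (g3 x w h1) (by rw [p1 t z hz w hw, p1 t y h x x.2])).symm
    have c1 : IsOpen (⋃ p ∈ t.1, O p) := isOpen_biUnion fun p _ => hO p
    have c2 : C t.1 y ⊆ ⋃ x, G x := fun x hx => mem_iUnion.2 ⟨⟨x, hx⟩, g2 _⟩
    refine ⟨?_, (f '' ((⋃ p ∈ t.1, O p) ∪ ⋃ x, G x)ᶜ)ᶜ,
      (hcl _ (c1.union (isOpen_iUnion g1)).isClosed_compl).isOpen_compl, ?_, fun z hz h1 V hV => ?_⟩
    · obtain ⟨r, hr⟩ := ((hk y).diff c1).elim_finite_subcover G g1 c2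
      refine (r.finite_toSet.biUnion fun x _ => finite_of_encard_eq_coe (p1 t y h x x.2)).subset
        fun V hV => ?_
      obtain ⟨w, hw, h1⟩ := mem_iUnion₂.1 hV
      obtain ⟨x, hx, h2⟩ := mem_iUnion₂.1 (hr hw)
      exact mem_biUnion hx (g4 x y h w hw h2 ▸ h1)
    · rintro ⟨x, h1, h2⟩
      exact h1 (Or.inr (c2 ⟨h2, fun h3 => h1 (Or.inl h3)⟩))
    · obtain ⟨w, hw, h2⟩ := mem_iUnion₂.1 hV
      have h3 : w ∈ ⋃ x, G x := by_contra fun h3 => hz ⟨w, fun h4 => h4.elim hw.2 h3, hw.1⟩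
      obtain ⟨x, hx⟩ := mem_iUnion.1 h3
      exact mem_biUnion x.2 (g4 x z h1 w hw hx ▸ h2)
  choose! p3 G g1 g2 g3 using p2
  have u1 : ∀ m (𝒯 : Set (Set X)), ∃ U, (∃ V ∈ 𝒯, V ∈ 𝒱 m) → U ∈ 𝒰 ∧ ∃ V ∈ 𝒯, V ⊆ f ⁻¹' U :=
    fun m 𝒯 => by
      by_cases h : ∃ V ∈ 𝒯, V ∈ 𝒱 m
      · obtain ⟨V, h1, h2⟩ := h
        obtain ⟨_, ⟨U, h3, rfl⟩, h4⟩ := (v1 m V h2).2
        exact ⟨U, fun _ => ⟨h3, V, h1, h4⟩⟩
      · exact ⟨∅, fun h' => absurd h' h⟩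
  choose u hu using u1
  obtain ⟨e, he⟩ := exists_surjective_nat ((Finset (ℕ × ℕ) × ℕ × ℕ) × ℕ)
  let W : (Finset (ℕ × ℕ) × ℕ × ℕ) × ℕ → Set (Set X) → Set Y := fun t 𝒯 => u t.1.2.1 𝒯 ∩
    ⋃ y ∈ {y | P t.1 y ∧ T t.1.1 t.1.2.1 y = 𝒯}, G t.1 y
  refine ⟨fun n => W (e n) '' {𝒯 | (∃ V ∈ 𝒯, V ∈ 𝒱 (e n).1.2.1) ∧ 𝒯.encard = (e n).2}, ?_,
    fun y => ?_⟩
  · rintro n _ ⟨𝒯, h, rfl⟩
    exact ⟨(hU _ (hu _ _ h.1).1).inter (isOpen_biUnion fun y hy => g1 _ y hy.1), _,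
      (hu _ _ h.1).1, inter_subset_left⟩
  obtain ⟨x, hx, h1⟩ := atom (hk y) (hs y) O hO
  obtain ⟨m, ⟨V, hV⟩, h2⟩ := v2 x
  obtain ⟨i, hi⟩ := h2.exists_encard_eq_coe
  obtain ⟨s, s1, s2, s3⟩ := h1 (m, i) (m, i + 1) hi.ge (by
    simp only [O, mem_ofPred_eq, hi, not_le]; exact_mod_cast i.lt_succ_self)
  have h3 : P (s, m, i) y := ⟨s3, s1⟩
  obtain ⟨j, hj⟩ := (p3 _ y h3).exists_encard_eq_coe
  obtain ⟨n, hn⟩ := he ((s, m, i), j)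
  have h4 : ∃ V ∈ T s m y, V ∈ 𝒱 m := ⟨V, mem_biUnion (x := x) ⟨hx, s2⟩ hV, (hN m x ▸ hV).1⟩
  refine ⟨n, ?_⟩
  simp only [hn]
  refine ⟨⟨W _ (T s m y), ⟨_, ⟨h4, hj⟩, rfl⟩, ?_⟩,
    (finite_singleton (W ((s, m, i), j) (T s m y))).subset ?_⟩
  · refine ⟨?_, mem_biUnion (x := y) ⟨h3, rfl⟩ (g2 _ y h3)⟩
    obtain ⟨V', h5, h6⟩ := (hu m _ h4).2
    obtain ⟨w, hw, h7⟩ := mem_iUnion₂.1 h5
    have h8 : f w ∈ u m (T s m y) := h6 (hN m w ▸ h7).2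
    rwa [show f w = y from hw.1] at h8
  · rintro _ ⟨⟨𝒯, h5, rfl⟩, h6⟩
    obtain ⟨z, ⟨h7, rfl⟩, h8⟩ := mem_iUnion₂.1 h6.2
    have := (p3 _ y h3).eq_of_subset_of_encard_le (g3 _ z h7 y h8 h3) (h5.2.trans hj.symm).le
    exact congrArg _ this.symm

end Pool.Agent.Results.MP_55e6a3_gt.Perfect
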